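import Pool.Agent.Helper14.T3.StC
import Pool.Agent.Helper14.W3.StB

/-!
# Project T3, module Bast3: level 9
-/

set_option autoImplicit false

namespace Pool.Agent.Helper61.T3

open Pool.Agent.Helper14.T3 Pool.Agent.Helper14.W3 Pool.Agent.Helper78.W3
open Pool.Agent.Helper14.CV (Homog EqC act Tl StFar)
open Pool.Agent.Helper76.TX (eX)

/-- Invariance without constant under a matrix of `Γ₀(9)` which fixes a cusp. -/
private theorem par {K : ℤ → ℤ → ℂ} (hS : Sym3 0 2 K) (a b c d x y : ℤ)
    (hdet : a * d - b * c = 1) (h9 : (9 : ℤ) ∣ c) (hxy : x ≠ 0 ∨ y ≠ 0)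
    (hx : a * x + b * y = x) (hy : c * x + d * y = y) (p q : ℤ) (hpq : p ≠ 0 ∨ q ≠ 0) :
    K (a * p + b * q) (c * p + d * q) = K p q := by
  obtain ⟨e, he⟩ := hS.2 a b c d hdet (by simp) (by norm_num; exact h9)
  have e1 := he x y hxy
  have e2 := he p q hpq
  simp only [act] at e1 e2
  rw [hx, hy] at e1
  have he0 : e = 0 := by linear_combination -e1
  rw [e2, he0, add_zero]

private theorem cop {a b c d p q : ℤ} (h : a * d - b * c = 1) (hpq : IsCoprime p q) :
    IsCoprime (a * p + b * q) (c * p + d * q) := by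
  obtain ⟨u, v, huv⟩ := hpq
  exact ⟨u * d - v * c, v * a - u * b, by linear_combination (a * d - b * c) * huv + h⟩

private theorem ne_of {p q : ℤ} (h : ¬ (3 : ℤ) ∣ q) : p ≠ 0 ∨ q ≠ 0 := by
  right; rintro rfl; exact h (dvd_zero _)

/-- A symbol of level `9` takes the value `K(0,1)` at all fractions with denominator prime to `3`. -/
private theorem desc {K : ℤ → ℤ → ℂ} (hS : Sym3 0 2 K) : ∀ (N : ℕ) (p q : ℤ), q.natAbs ≤ N →
    IsCoprime p q → ¬ (3 : ℤ) ∣ q → K p q = K 0 1 := by
  intro N
  induction N with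
  | zero =>
    intro p q hN _ h3
    exact absurd (by rw [Int.natAbs_eq_zero.1 (Nat.le_zero.1 hN)]; exact dvd_zero _) h3
  | succ N ih =>
    -- one step
    have step : ∀ (a b c d x y r q : ℤ), a * d - b * c = 1 → (9 : ℤ) ∣ c → (x ≠ 0 ∨ y ≠ 0) →
        a * x + b * y = x → c * x + d * y = y → IsCoprime r q → ¬ (3 : ℤ) ∣ q →
        ¬ (3 : ℤ) ∣ (c * r + d * q) → (c * r + d * q).natAbs ≤ N → K r q = K 0 1 := by
      intro a b c d x y r q hdet h9 hxy hx hy hrq h3 h3' hN
      rw [← par hS a b c d x y hdet h9 hxy hx hy r q (ne_of h3)]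
      exact ih _ _ hN (cop hdet hrq) h3'
    -- the reduced case
    have hred : ∀ r q : ℤ, 0 < q → -q ≤ 2 * r → 2 * r ≤ q → q.natAbs ≤ N + 1 → IsCoprime r q →
        ¬ (3 : ℤ) ∣ q → K r q = K 0 1 := by
      intro r q hq hr1 hr2 hN hc h3
      rcases lt_trichotomy r 0 with hr | hr | hr
      · by_cases ha : -(3 * r) < q
        · by_cases hb : -(9 * r) < 2 * q
          · exact step 1 0 9 1 0 1 r q (by norm_num) (by norm_num) (by norm_num) (by norm_num)
              (by norm_num) hc h3 (by omega) (by omega)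
          · exact step 4 1 (-9) (-2) (-1) 3 r q (by norm_num) (by norm_num) (by norm_num)
              (by norm_num) (by norm_num) hc h3 (by omega) (by omega)
        · exact step (-2) (-1) 9 4 (-1) 3 r q (by norm_num) (by norm_num) (by norm_num)
            (by norm_num) (by norm_num) hc h3 (by omega) (by omega)
      · subst hr
        have h1 : q = 1 := by
          have hu := isCoprime_zero_left.1 hc
          rcases Int.isUnit_iff.1 hu with h | h
          · exact h
          · omega
        rw [h1]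
      · by_cases ha : 3 * r < q
        · by_cases hb : 9 * r < 2 * q
          · exact step 1 0 (-9) 1 0 1 r q (by norm_num) (by norm_num) (by norm_num) (by norm_num)
              (by norm_num) hc h3 (by omega) (by omega)
          · exact step 4 (-1) 9 (-2) 1 3 r q (by norm_num) (by norm_num) (by norm_num)
              (by norm_num) (by norm_num) hc h3 (by omega) (by omega)
        · exact step (-2) 1 (-9) 4 1 3 r q (by norm_num) (by norm_num) (by norm_num)
            (by norm_num) (by norm_num) hc h3 (by omega) (by omega)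
    -- positive denominators
    have hpos : ∀ p q : ℤ, 0 < q → q.natAbs ≤ N + 1 → IsCoprime p q → ¬ (3 : ℤ) ∣ q →
        K p q = K 0 1 := by
      intro p q hq hN hc h3
      set m : ℤ := (2 * p + q) / (2 * q) with hm
      have h1 : 2 * q * m ≤ 2 * p + q := Int.mul_ediv_self_le (by omega)
      have h2 : 2 * p + q < 2 * q * m + 2 * q := Int.lt_mul_ediv_self_add (by omega)
      have h0 := par hS 1 (-m) 0 1 1 0 (by ring) (dvd_zero _) (by norm_num) (by ring) (by ring) p q
        (ne_of h3)
      rw [← h0]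
      have e1 : (0 : ℤ) * p + 1 * q = q := by ring
      rw [e1]
      have hc' : IsCoprime (1 * p + -m * q) q := by
        have := cop (a := 1) (b := -m) (c := 0) (d := 1) (by ring) hc
        rwa [e1] at this
      have e2 : 1 * p + -m * q = p - q * m := by ring
      rw [e2] at hc' ⊢
      refine hred _ _ hq ?_ ?_ hN hc' h3
      · linarith
      · linarith
    intro p q hN hc h3
    rcases lt_trichotomy q 0 with hq | hq | hq
    · have h0 := hS.1 (-1) p q (by norm_num) (ne_of h3)
      rw [← h0]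
      refine hpos _ _ (by omega) (by omega) ?_ (by omega)
      simpa using (IsCoprime.neg_neg hc)
    · exact absurd (by rw [hq]; exact dvd_zero _) h3
    · exact hpos p q hq hN hc h3

private theorem jsum {D : ℕ} (h4 : D % 4 = 3) :
    ∑ a ∈ Finset.range D, jacobiSym (a : ℤ) D = 0 := by
  have hodd : Odd D := Nat.odd_iff.2 (by omega)
  have : NeZero D := ⟨by omega⟩
  obtain ⟨d, hd⟩ : ∃ d, D = d + 1 := ⟨D - 1, by omega⟩
  have h0 : jacobiSym ((0 : ℕ) : ℤ) D = 0 := by
    rw [jacobiSym.eq_zero_iff_not_coprime]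
    simp only [Nat.cast_zero, Int.gcd_zero_left, Int.natAbs_natCast]
    omega
  have h1 : ∑ a ∈ Finset.range D, jacobiSym (a : ℤ) D =
      ∑ a ∈ Finset.range d, jacobiSym ((a + 1 : ℕ) : ℤ) D := by
    rw [hd, Finset.sum_range_succ', ← hd, h0, add_zero]
  have h2 : ∑ a ∈ Finset.range d, jacobiSym ((a + 1 : ℕ) : ℤ) D =
      ∑ a ∈ Finset.range d, -jacobiSym ((a + 1 : ℕ) : ℤ) D := by
    rw [← Finset.sum_range_reflect]
    refine Finset.sum_congr rfl fun a ha => ?_
    have ha' := Finset.mem_range.1 ha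
    have e : jacobiSym (((d - 1 - a + 1 : ℕ)) : ℤ) D = jacobiSym (-((a + 1 : ℕ) : ℤ)) D := by
      apply jacobiSym.mod_left'
      have : (((d - 1 - a + 1 : ℕ)) : ℤ) = -((a + 1 : ℕ) : ℤ) + D := by
        push_cast [Nat.cast_sub (show a ≤ d - 1 by omega), Nat.cast_sub (show 1 ≤ d by omega), hd]
        ring
      rw [this, Int.add_emod_right]
    rw [e, jacobiSym.neg _ hodd, ZMod.χ₄_nat_three_mod_four h4, neg_one_mul]
  rw [h1]
  rw [Finset.sum_neg_distrib] at h2
  omega

private theorem eX_zero {D : ℕ} (h4 : D % 4 = 3) (h3 : D % 3 ≠ 0) {K : ℤ → ℤ → ℂ}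
    (hS : Sym3 0 2 K) : eX D K = 0 := by
  have : NeZero D := ⟨by omega⟩
  have h : eX D K = ∑ a ∈ Finset.range D, jacobiSym (a : ℤ) D • (K 0 1 - K 1 0) := by
    unfold eX
    refine Finset.sum_congr rfl fun a _ => ?_
    by_cases hc : Int.gcd (a : ℤ) D = 1
    · rw [desc hS _ (a : ℤ) (D : ℤ) le_rfl (Int.isCoprime_iff_gcd_eq_one.2 hc) (by omega)]
    · have h0 : jacobiSym (a : ℤ) D = 0 := by
        rw [jacobiSym.eq_zero_iff_not_coprime]
        exact hc
      rw [h0, zero_smul, zero_smul]
  rw [h, ← Finset.sum_smul, jsum h4, zero_smul]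

/-- BAST3: at level `9` all twisted values vanish. -/
theorem hBast3 (hFar : StFar) (hHkS : S3HkS) : Bast3 := by
  have _ := hFar
  intro D G h4 h3 hG
  have hT : ∀ (i : ℕ) (H : ℤ → ℤ → ℂ), Sym3 0 2 H → Sym3 0 2 ((Tl 2 1)^[i] H) := by
    intro i
    induction i with
    | zero => intro H hH; exact hH
    | succ i ih =>
      intro H hH
      rw [Function.iterate_succ_apply]
      exact ih _ ((hHkS ℂ inferInstance 2 H hH).1 2 Nat.prime_two (by norm_num))
  have hB : ∀ (i : ℕ) (H : ℤ → ℤ → ℂ), Sym3 0 2 H → Sym3 0 2 ((Bo 1)^[i] H) := by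
    intro i
    induction i with
    | zero => intro H hH; exact hH
    | succ i ih =>
      intro H hH
      rw [Function.iterate_succ_apply]
      exact ih _ (hHkS ℂ inferInstance 2 H hH).2
  funext i j
  rw [evT_apply]
  exact eX_zero h4 h3 (hB j _ (hT i _ hG))

end Pool.Agent.Helper61.T3
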