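import Pool.Agent.Helper28.T3.StC

/-!
# Project T3, module SAq: the sum over `a` for fixed `m`, modulus `q`
(adapted from `Pool/Agent/Helper60/T3/M_SA.lean`)
-/

set_option autoImplicit false

open MeasureTheory

namespace Pool.Agent.Helper61.T3

open Pool.Agent.Helper28.T3

private lemma Wf_nonneg (X a m : ℝ) : 0 ≤ Wf X a m := le_max_left _ _

/-- SAq -/
theorem hSAq : StUM → StWA → StWB → StPHI → StSAq := by
  intro hUM hWA hWB hPHI q hq X m hX hm hmX a0 S hS
  have hq0 : (0 : ℝ) < (q : ℝ) := by exact_mod_cast hq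
  obtain ⟨hW, hmono, hanti⟩ := hWA X m hX hm hmX
  have hsm : 0 < Real.sqrt m := Real.sqrt_pos.mpr hm
  have hK : 0 < 2 * m * Real.sqrt m := by positivity
  set f : ℝ → ℝ := fun a => if 0 < a then Wf X a m / a ^ 2 else 0 with hf
  set g : ℝ → ℝ := fun a => (Real.sqrt (4 * m ^ 3 - 3 * m ^ 2 * a ^ 2) -
    Real.sqrt (4 * m ^ 3 - X * a ^ 2)) / a ^ 2 with hg
  set B : ℝ := min (2 * m * Real.sqrt m) (X / (2 * m * Real.sqrt m)) with hB
  have hB0 : 0 ≤ B := le_min hK.le (div_nonneg hX.le hK.le)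
  have hf0 : ∀ x, 0 ≤ f x := by
    intro x
    simp only [hf]
    split_ifs with h
    · exact div_nonneg (Wf_nonneg _ _ _) (sq_nonneg x)
    · exact le_rfl
  have hind : f = Set.indicator (Set.Ioi (0 : ℝ)) g := by
    ext x
    by_cases hx : 0 < x
    · rw [Set.indicator_of_mem (Set.mem_Ioi.mpr hx)]
      simp only [hf, hg, if_pos hx]
      rw [hW x hx]
    · rw [Set.indicator_of_notMem (by simpa using hx)]
      simp only [hf, if_neg hx]
  obtain ⟨hint, hval⟩ := hPHI (4 * m ^ 3) (3 * m ^ 2) X (by positivity) (by positivity) hmX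
  have hfi : Integrable f := by
    rw [hind]
    exact (integrable_indicator_iff measurableSet_Ioi).mpr hint
  have hfv : ∫ x, f x = Real.pi / 2 * (Real.sqrt X - Real.sqrt 3 * m) := by
    rw [hind, integral_indicator measurableSet_Ioi, hval, Real.sqrt_mul (by norm_num : (0:ℝ) ≤ 3),
      Real.sqrt_sq hm.le]
  -- the bound
  have hbd : ∀ x : ℝ, 1 ≤ x → f x ≤ B := by
    intro x hx
    have hx0 : 0 < x := by linarith
    have hx2 : 1 ≤ x ^ 2 := by nlinarith
    have hx2' : 0 < x ^ 2 := by positivity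
    obtain ⟨h12, -, -⟩ := hWB X x hX hx0
    obtain ⟨h1, h2⟩ := h12 m hm
    simp only [hf, if_pos hx0]
    refine le_min ?_ ?_
    · rw [div_le_iff₀ hx2']
      nlinarith
    · rw [div_le_iff₀ hx2']
      calc Wf X x m ≤ x ^ 2 * X / (2 * m * Real.sqrt m) := h2
        _ = X / (2 * m * Real.sqrt m) * x ^ 2 := by ring
  -- the points
  have hpt : ∀ a ∈ S, ((a0 : ℝ) + (q : ℝ) * ((a / (q : ℤ) : ℤ) : ℝ)) = (a : ℝ) := by
    intro a ha
    have h1 := (hS a ha).2
    have h2 : a0 + (q : ℤ) * (a / (q : ℤ)) = a := by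
      rw [← h1]
      exact Int.emod_add_mul_ediv a q
    exact_mod_cast congrArg (fun z : ℤ => (z : ℝ)) h2
  have hinj : Set.InjOn (fun a : ℤ => a / (q : ℤ)) (S : Set ℤ) := by
    intro a ha b hb hab
    have h1 := (hS a ha).2
    have h2 := (hS b hb).2
    simp only at hab
    rw [← Int.emod_add_mul_ediv a q, ← Int.emod_add_mul_ediv b q, h1, h2, hab]
  have hmain := hUM f (Real.sqrt (4 * m ^ 3 / X)) q B (a0 : ℝ)
    (S.image fun a : ℤ => a / (q : ℤ))
    hq0 hB0 hf0 hmono hanti hfi (by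
      intro k hk
      obtain ⟨a, ha, rfl⟩ := Finset.mem_image.mp hk
      rw [hpt a ha]
      exact hbd _ (by exact_mod_cast (hS a ha).1))
  rw [Finset.sum_image hinj, hfv] at hmain
  refine le_trans (le_of_eq ?_) hmain
  refine Finset.sum_congr rfl fun a ha => ?_
  rw [hpt a ha]
  have ha1 : (1 : ℝ) ≤ (a : ℝ) := by exact_mod_cast (hS a ha).1
  have ha0 : (0 : ℝ) < (a : ℝ) := by linarith
  simp only [hf, if_pos ha0]

end Pool.Agent.Helper61.T3
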